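import Mathlib
import Pool.Agent.X147.Brace

set_option autoImplicit false

/-! # MP_ab14aa_co, Q1: a flexible strictly convex realisation of a generically rigid braced octagon

The plane is `ℂ`. The graph has `8` vertices and `13` edges: the complete bipartite graph between
`{0, 2, 4}` and `{1, 5, 7}`, a vertex `3` joined to `2` and `4`, and a vertex `6` joined to `5`
and `7`. -/

open Set Filter Topology Pool.Agent.X147.BP

namespace Pool.Agent.Results.MP_ab14aa_co.FlexibleOctagon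

/-- A braced polygon graph on the vertices `0, ..., n - 1`: it contains the cycle
`0, 1, ..., n - 1, 0`. -/
def IsBracedPolygon {n : ℕ} [NeZero n] (G : SimpleGraph (Fin n)) : Prop :=
  3 ≤ n ∧ ∀ i : Fin n, G.Adj i (i + 1)

/-- `p 0, ..., p (n - 1)` are, in this (counterclockwise) cyclic order, the vertices of a strictly
convex polygon: all triples in cyclic order are positively oriented. -/
def IsStrictlyConvex {n : ℕ} (p : Fin n → ℂ) : Prop :=
  ∀ i j k : Fin n, i < j → j < k →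
    0 < (p j - p i).re * (p k - p i).im - (p j - p i).im * (p k - p i).re

/-- The coordinates of a configuration. -/
def coord {n : ℕ} (p : Fin n → ℂ) (x : Fin n × Fin 2) : ℝ :=
  if x.2 = 0 then (p x.1).re else (p x.1).im

/-- The framework `(G, p)` is rigid (not flexible) for all configurations `p` outside the zero set
of a nonzero polynomial with rational coefficients in the coordinates. -/
def IsGenericallyRigid {n : ℕ} (G : SimpleGraph (Fin n)) : Prop :=
  ∃ F : MvPolynomial (Fin n × Fin 2) ℚ, F ≠ 0 ∧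
    ∀ p : Fin n → ℂ, MvPolynomial.aeval (coord p) F ≠ 0 → ¬ Flexible G p

/-- The list of edges. -/
def edges : List (Fin 8 × Fin 8) :=
  [(0, 1), (0, 5), (0, 7), (2, 1), (2, 5), (2, 7), (4, 1), (4, 5), (4, 7), (3, 2), (3, 4),
    (6, 5), (6, 7)]

/-- The graph. -/
def G : SimpleGraph (Fin 8) := SimpleGraph.fromRel fun i j => (i, j) ∈ edges

instance : DecidableRel G.Adj := by
  unfold G; infer_instance

lemma braced : IsBracedPolygon G := by
  refine ⟨by norm_num, ?_⟩
  decide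

/-! ### Generic rigidity -/

/-- cross product -/
def cr (z w : ℂ) : ℝ := z.re * w.im - z.im * w.re

/-- a vector orthogonal to `z ≠ 0` is a multiple of `i z` -/
lemma perp {z w : ℂ} (hz : z ≠ 0) (h : ip z w = 0) : ∃ s : ℝ, w.re = -(s * z.im) ∧ w.im = s * z.re := by
  have hn : z.re ^ 2 + z.im ^ 2 ≠ 0 := by
    have h2 : z.re ^ 2 + z.im ^ 2 = Complex.normSq z := by rw [Complex.normSq_apply]; ring
    rw [h2]; exact (Complex.normSq_pos.2 hz).ne'
  unfold ip at h
  refine ⟨(z.re * w.im - z.im * w.re) / (z.re ^ 2 + z.im ^ 2), ?_, ?_⟩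
  · rw [div_mul_eq_mul_div, ← neg_div, eq_div_iff hn]
    linear_combination z.re * h
  · rw [div_mul_eq_mul_div, eq_div_iff hn]
    linear_combination z.im * h

lemma two_perp {z z' w : ℂ} (hz : cr z z' ≠ 0) (h : ip z w = 0) (h' : ip z' w = 0) : w = 0 := by
  unfold cr at hz
  unfold ip at h h'
  have e1 : (z.re * z'.im - z.im * z'.re) * w.re = 0 := by
    linear_combination z'.im * h - z.im * h'
  have e2 : (z.re * z'.im - z.im * z'.re) * w.im = 0 := by
    linear_combination z.re * h' - z'.re * h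
  apply Complex.ext
  · simpa using (mul_eq_zero.1 e1).resolve_left hz
  · simpa using (mul_eq_zero.1 e2).resolve_left hz

/-- `C i j` -/
def cC (p : Fin 8 → ℂ) (i j : Fin 8) : ℝ := cr (p i - p j) (p i - p 1)

/-- `D i j` -/
def cD (p : Fin 8 → ℂ) (i j : Fin 8) : ℝ := cr (p i - p j) (p 0 - p j)

/-- the main factor -/
def main (p : Fin 8 → ℂ) : ℝ :=
  cC p 2 5 * cD p 4 5 * cC p 4 7 * cD p 2 7 - cD p 2 5 * cC p 4 5 * cD p 4 7 * cC p 2 7

/-- Rigidity when some explicit expressions do not vanish. -/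
lemma rigid_of_ne (p : Fin 8 → ℂ) (h01 : p 0 ≠ p 1) (h05 : p 0 ≠ p 5) (h07 : p 0 ≠ p 7)
    (h21 : p 2 ≠ p 1) (h41 : p 4 ≠ p 1) (hmain : main p ≠ 0)
    (h3 : cr (p 3 - p 2) (p 3 - p 4) ≠ 0) (h6 : cr (p 6 - p 5) (p 6 - p 7) ≠ 0) :
    ¬ Flexible G p := by
  refine rigid_of_IR G p 0 1 (by decide) h01 fun m hm0 hm1 hm => ?_
  -- the vertices adjacent to 0 or 1
  obtain ⟨s5, a5, b5⟩ := perp (sub_ne_zero.2 h05.symm) (w := m 5)
    (by have := hm 5 0 (by decide); rwa [hm0, sub_zero] at this)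
  obtain ⟨s7, a7, b7⟩ := perp (sub_ne_zero.2 h07.symm) (w := m 7)
    (by have := hm 7 0 (by decide); rwa [hm0, sub_zero] at this)
  obtain ⟨r2, a2, b2⟩ := perp (sub_ne_zero.2 h21) (w := m 2)
    (by have := hm 2 1 (by decide); rwa [hm1, sub_zero] at this)
  obtain ⟨r4, a4, b4⟩ := perp (sub_ne_zero.2 h41) (w := m 4)
    (by have := hm 4 1 (by decide); rwa [hm1, sub_zero] at this)
  have e25 : r2 * cC p 2 5 = - (s5 * cD p 2 5) := by
    have := hm 2 5 (by decide)
    simp only [ip, Complex.sub_re, Complex.sub_im, a2, b2, a5, b5] at this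
    simp only [cC, cD, cr, Complex.sub_re, Complex.sub_im]
    linear_combination (-1 : ℝ) * this
  have e27 : r2 * cC p 2 7 = - (s7 * cD p 2 7) := by
    have := hm 2 7 (by decide)
    simp only [ip, Complex.sub_re, Complex.sub_im, a2, b2, a7, b7] at this
    simp only [cC, cD, cr, Complex.sub_re, Complex.sub_im]
    linear_combination (-1 : ℝ) * this
  have e45 : r4 * cC p 4 5 = - (s5 * cD p 4 5) := by
    have := hm 4 5 (by decide)
    simp only [ip, Complex.sub_re, Complex.sub_im, a4, b4, a5, b5] at this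
    simp only [cC, cD, cr, Complex.sub_re, Complex.sub_im]
    linear_combination (-1 : ℝ) * this
  have e47 : r4 * cC p 4 7 = - (s7 * cD p 4 7) := by
    have := hm 4 7 (by decide)
    simp only [ip, Complex.sub_re, Complex.sub_im, a4, b4, a7, b7] at this
    simp only [cC, cD, cr, Complex.sub_re, Complex.sub_im]
    linear_combination (-1 : ℝ) * this
  unfold main at hmain
  set c25 := cC p 2 5
  set c27 := cC p 2 7
  set c45 := cC p 4 5
  set c47 := cC p 4 7
  set d25 := cD p 2 5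
  set d27 := cD p 2 7
  set d45 := cD p 4 5
  set d47 := cD p 4 7
  have f1 : (c25 * d45 * c47 * d27 - d25 * c45 * d47 * c27) * r2 = 0 := by
    linear_combination (d45 * c47 * d27) * e25 - (d25 * c47 * d27) * e45 + (d25 * c45 * d27) * e47 -
      (d25 * c45 * d47) * e27
  have f2 : (c25 * d45 * c47 * d27 - d25 * c45 * d47 * c27) * s5 = 0 := by
    linear_combination (c25 * c47 * d27) * e45 - (c25 * c45 * d27) * e47 +
      (c25 * c45 * d47) * e27 - (c27 * c45 * d47) * e25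
  have f3 : (c25 * d45 * c47 * d27 - d25 * c45 * d47 * c27) * r4 = 0 := by
    linear_combination (c25 * d45 * d27) * e47 - (c25 * d45 * d47) * e27 + (c27 * d45 * d47) * e25 -
      (c27 * d25 * d47) * e45
  have f4 : (c25 * d45 * c47 * d27 - d25 * c45 * d47 * c27) * s7 = 0 := by
    linear_combination (c25 * d45 * c47) * e27 - (c27 * c47 * d45) * e25 + (c27 * c47 * d25) * e45 -
      (c27 * c45 * d25) * e47
  have g1 := (mul_eq_zero.1 f1).resolve_left hmain
  have g2 := (mul_eq_zero.1 f2).resolve_left hmain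
  have g3 := (mul_eq_zero.1 f3).resolve_left hmain
  have g4 := (mul_eq_zero.1 f4).resolve_left hmain
  have m2 : m 2 = 0 := Complex.ext (by rw [a2, g1]; simp) (by rw [b2, g1]; simp)
  have m4 : m 4 = 0 := Complex.ext (by rw [a4, g3]; simp) (by rw [b4, g3]; simp)
  have m5 : m 5 = 0 := Complex.ext (by rw [a5, g2]; simp) (by rw [b5, g2]; simp)
  have m7 : m 7 = 0 := Complex.ext (by rw [a7, g4]; simp) (by rw [b7, g4]; simp)
  have m3 : m 3 = 0 := two_perp h3
    (by have := hm 3 2 (by decide); rwa [m2, sub_zero] at this)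
    (by have := hm 3 4 (by decide); rwa [m4, sub_zero] at this)
  have m6 : m 6 = 0 := two_perp h6
    (by have := hm 6 5 (by decide); rwa [m5, sub_zero] at this)
    (by have := hm 6 7 (by decide); rwa [m7, sub_zero] at this)
  funext i
  fin_cases i
  · exact hm0
  · exact hm1
  · exact m2
  · exact m3
  · exact m4
  · exact m5
  · exact m6
  · exact m7

open MvPolynomial in
/-- polynomial version of `cr (p i - p j) (p k - p l)` -/
noncomputable def crP (i j k l : Fin 8) : MvPolynomial (Fin 8 × Fin 2) ℚ :=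
  (X (i, 0) - X (j, 0)) * (X (k, 1) - X (l, 1)) - (X (i, 1) - X (j, 1)) * (X (k, 0) - X (l, 0))

open MvPolynomial in
/-- polynomial version of `‖p i - p j‖ ^ 2` -/
noncomputable def nsP (i j : Fin 8) : MvPolynomial (Fin 8 × Fin 2) ℚ :=
  (X (i, 0) - X (j, 0)) ^ 2 + (X (i, 1) - X (j, 1)) ^ 2

/-- the polynomial -/
noncomputable def FP : MvPolynomial (Fin 8 × Fin 2) ℚ :=
  nsP 0 1 * nsP 0 5 * nsP 0 7 * nsP 2 1 * nsP 4 1 *
    (crP 2 5 2 1 * crP 4 5 0 5 * crP 4 7 4 1 * crP 2 7 0 7 -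
      crP 2 5 0 5 * crP 4 5 4 1 * crP 4 7 0 7 * crP 2 7 2 1) *
    crP 3 2 3 4 * crP 6 5 6 7

lemma aeval_crP (p : Fin 8 → ℂ) (i j k l : Fin 8) :
    MvPolynomial.aeval (coord p) (crP i j k l) = cr (p i - p j) (p k - p l) := by
  simp [crP, cr, coord]

lemma aeval_nsP (p : Fin 8 → ℂ) (i j : Fin 8) (h : MvPolynomial.aeval (coord p) (nsP i j) ≠ 0) :
    p i ≠ p j := by
  intro hij
  apply h
  simp [nsP, coord, hij]

/-- a configuration where the polynomial does not vanish -/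
def x0 : Fin 8 × Fin 2 → ℚ := fun x =>
  (![![0, 0], ![1, 0], ![0, 1], ![2, 3], ![3, 2], ![1, 3], ![5, 1], ![-1, 2]] :
    Fin 8 → Fin 2 → ℚ) x.1 x.2

lemma FP_ne_zero : FP ≠ 0 := by
  intro h
  have h1 : MvPolynomial.eval x0 FP = 0 := by rw [h]; simp
  simp [FP, nsP, crP, x0] at h1
  norm_num at h1

lemma genericallyRigid : IsGenericallyRigid G := by
  refine ⟨FP, FP_ne_zero, fun p hp => ?_⟩
  simp only [FP, map_mul, mul_ne_zero_iff] at hp
  obtain ⟨⟨⟨⟨⟨⟨⟨h01, h05⟩, h07⟩, h21⟩, h41⟩, hm⟩, h3⟩, h6⟩ := hp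
  refine rigid_of_ne p (aeval_nsP p _ _ h01) (aeval_nsP p _ _ h05) (aeval_nsP p _ _ h07)
    (aeval_nsP p _ _ h21) (aeval_nsP p _ _ h41) ?_ ?_ ?_
  · simp only [map_sub, map_mul, aeval_crP] at hm
    exact hm
  · rw [aeval_crP] at h3; exact h3
  · rw [aeval_crP] at h6; exact h6

/-! ### The flexible octagon -/

/-- `a + c` -/
noncomputable def U (t : ℝ) : ℝ := Real.sqrt (16 + t)
/-- `a - c` -/
noncomputable def W (t : ℝ) : ℝ := Real.sqrt (4 + t)
/-- `d + b` -/
noncomputable def Y (t : ℝ) : ℝ := Real.sqrt (16 - t)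
/-- `d - b` -/
noncomputable def Z (t : ℝ) : ℝ := Real.sqrt (4 - t)

noncomputable def a (t : ℝ) : ℝ := (U t + W t) / 2
noncomputable def c (t : ℝ) : ℝ := (U t - W t) / 2
noncomputable def d (t : ℝ) : ℝ := (Y t + Z t) / 2
noncomputable def b (t : ℝ) : ℝ := (Y t - Z t) / 2
noncomputable def h (t : ℝ) : ℝ := Real.sqrt (5 / 4 - b t ^ 2)
noncomputable def k (t : ℝ) : ℝ := Real.sqrt (5 / 4 - c t ^ 2)

/-- The motion. -/
noncomputable def P (t : ℝ) : Fin 8 → ℂ :=
  ![⟨a t, b t⟩, ⟨c t, d t⟩, ⟨-a t, b t⟩, ⟨-a t - h t, 0⟩, ⟨-a t, -b t⟩, ⟨-c t, -d t⟩,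
    ⟨0, -d t - k t⟩, ⟨c t, -d t⟩]

lemma U_sq {t : ℝ} (ht : t ∈ Icc (0 : ℝ) 1) : U t ^ 2 = 16 + t := Real.sq_sqrt (by linarith [ht.1])
lemma W_sq {t : ℝ} (ht : t ∈ Icc (0 : ℝ) 1) : W t ^ 2 = 4 + t := Real.sq_sqrt (by linarith [ht.1])
lemma Y_sq {t : ℝ} (ht : t ∈ Icc (0 : ℝ) 1) : Y t ^ 2 = 16 - t := Real.sq_sqrt (by linarith [ht.2])
lemma Z_sq {t : ℝ} (ht : t ∈ Icc (0 : ℝ) 1) : Z t ^ 2 = 4 - t := Real.sq_sqrt (by linarith [ht.2])

lemma U_zero : U 0 = 4 := by unfold U; rw [show (16 : ℝ) + 0 = 4 ^ 2 by norm_num]; simp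
lemma W_zero : W 0 = 2 := by unfold W; rw [show (4 : ℝ) + 0 = 2 ^ 2 by norm_num]; simp
lemma Y_zero : Y 0 = 4 := by unfold Y; rw [show (16 : ℝ) - 0 = 4 ^ 2 by norm_num]; simp
lemma Z_zero : Z 0 = 2 := by unfold Z; rw [show (4 : ℝ) - 0 = 2 ^ 2 by norm_num]; simp
lemma a_zero : a 0 = 3 := by unfold a; rw [U_zero, W_zero]; norm_num
lemma c_zero : c 0 = 1 := by unfold c; rw [U_zero, W_zero]; norm_num
lemma d_zero : d 0 = 3 := by unfold d; rw [Y_zero, Z_zero]; norm_num
lemma b_zero : b 0 = 1 := by unfold b; rw [Y_zero, Z_zero]; norm_num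
lemma h_zero : h 0 = 1 / 2 := by
  unfold h; rw [b_zero, show (5 : ℝ) / 4 - 1 ^ 2 = (1 / 2) ^ 2 by norm_num]
  exact Real.sqrt_sq (by norm_num)
lemma k_zero : k 0 = 1 / 2 := by
  unfold k; rw [c_zero, show (5 : ℝ) / 4 - 1 ^ 2 = (1 / 2) ^ 2 by norm_num]
  exact Real.sqrt_sq (by norm_num)

lemma h_sq {t : ℝ} (ht : t ∈ Icc (0 : ℝ) 1) : h t ^ 2 = 5 / 4 - b t ^ 2 := by
  refine Real.sq_sqrt ?_
  have h1 := Y_sq ht
  have h2 := Z_sq ht
  have h3 : 0 ≤ Y t := Real.sqrt_nonneg _
  have h4 : 0 ≤ Z t := Real.sqrt_nonneg _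
  have h5 : 15 - 2 * t ≤ 2 * (Y t * Z t) := by
    apply le_of_sq_le_sq _ (by positivity)
    have : (2 * (Y t * Z t)) ^ 2 = 4 * ((16 - t) * (4 - t)) := by rw [← h1, ← h2]; ring
    rw [this]
    nlinarith [ht.1, ht.2]
  unfold b
  nlinarith

lemma k_sq {t : ℝ} (ht : t ∈ Icc (0 : ℝ) 1) : k t ^ 2 = 5 / 4 - c t ^ 2 := by
  refine Real.sq_sqrt ?_
  have h1 := U_sq ht
  have h2 := W_sq ht
  have h3 : 0 ≤ U t := Real.sqrt_nonneg _
  have h4 : 0 ≤ W t := Real.sqrt_nonneg _
  have h5 : 16 + 2 * t ≤ 2 * (U t * W t) := by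
    apply le_of_sq_le_sq _ (by positivity)
    have : (2 * (U t * W t)) ^ 2 = 4 * ((16 + t) * (4 + t)) := by rw [← h1, ← h2]; ring
    rw [this]
    nlinarith [ht.1, ht.2]
  unfold c
  nlinarith

lemma P_cont : Continuous P := by
  refine continuous_pi fun i => ?_
  have hU : Continuous U := by unfold U; fun_prop
  have hW : Continuous W := by unfold W; fun_prop
  have hY : Continuous Y := by unfold Y; fun_prop
  have hZ : Continuous Z := by unfold Z; fun_prop
  have ha : Continuous a := by unfold a; fun_prop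
  have hb : Continuous b := by unfold b; fun_prop
  have hc : Continuous c := by unfold c; fun_prop
  have hd : Continuous d := by unfold d; fun_prop
  have hh : Continuous h := by unfold h; fun_prop
  have hk : Continuous k := by unfold k; fun_prop
  have key : ∀ f g : ℝ → ℝ, Continuous f → Continuous g → Continuous fun t => (⟨f t, g t⟩ : ℂ) := by
    intro f g hf hg
    exact Complex.equivRealProdCLM.symm.continuous.comp (hf.prodMk hg)
  fin_cases i
  · exact key _ _ ha hb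
  · exact key _ _ hc hd
  · exact key _ _ ha.neg hb
  · exact key _ _ (ha.neg.sub hh) continuous_const
  · exact key _ _ ha.neg hb.neg
  · exact key _ _ hc.neg hd.neg
  · exact key _ _ continuous_const (hd.neg.sub hk)
  · exact key _ _ hc hd.neg

lemma dist_eq_of_sq {x y x' y' u v u' v' : ℝ}
    (h : (x - x') ^ 2 + (y - y') ^ 2 = (u - u') ^ 2 + (v - v') ^ 2) :
    dist (⟨x, y⟩ : ℂ) ⟨x', y'⟩ = dist (⟨u, v⟩ : ℂ) ⟨u', v'⟩ := by
  rw [Complex.dist_eq_re_im, Complex.dist_eq_re_im]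
  simp only
  rw [h]

lemma bar_eq {t : ℝ} (ht : t ∈ Icc (0 : ℝ) 1) (e : Fin 8 × Fin 8) (he : e ∈ edges) :
    dist (P t e.1) (P t e.2) = dist (P 0 e.1) (P 0 e.2) := by
  have hU := U_sq ht
  have hW := W_sq ht
  have hY := Y_sq ht
  have hZ := Z_sq ht
  have hh := h_sq ht
  have hk := k_sq ht
  have ea : a t = (U t + W t) / 2 := rfl
  have ec : c t = (U t - W t) / 2 := rfl
  have ed : d t = (Y t + Z t) / 2 := rfl
  have eb : b t = (Y t - Z t) / 2 := rfl
  have i1 : (a t - c t) ^ 2 + (b t - d t) ^ 2 = 8 := by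
    rw [ea, ec, ed, eb]; linear_combination hW + hZ
  have i2 : (a t + c t) ^ 2 + (b t - d t) ^ 2 = 20 := by
    rw [ea, ec, ed, eb]; linear_combination hU + hZ
  have i3 : (a t - c t) ^ 2 + (b t + d t) ^ 2 = 20 := by
    rw [ea, ec, ed, eb]; linear_combination hW + hY
  have i4 : (a t + c t) ^ 2 + (b t + d t) ^ 2 = 32 := by
    rw [ea, ec, ed, eb]; linear_combination hU + hY
  simp only [edges, List.mem_cons, List.not_mem_nil, or_false] at he
  rcases he with rfl | rfl | rfl | rfl | rfl | rfl | rfl | rfl | rfl | rfl | rfl | rfl | rfl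
  · refine dist_eq_of_sq ?_
    rw [a_zero, b_zero, c_zero, d_zero]; linear_combination i1
  · refine dist_eq_of_sq ?_
    rw [a_zero, b_zero, c_zero, d_zero]; linear_combination i4
  · refine dist_eq_of_sq ?_
    rw [a_zero, b_zero, c_zero, d_zero]; linear_combination i3
  · refine dist_eq_of_sq ?_
    rw [a_zero, b_zero, c_zero, d_zero]; linear_combination i2
  · refine dist_eq_of_sq ?_
    rw [a_zero, b_zero, c_zero, d_zero]; linear_combination i3
  · refine dist_eq_of_sq ?_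
    rw [a_zero, b_zero, c_zero, d_zero]; linear_combination i4
  · refine dist_eq_of_sq ?_
    rw [a_zero, b_zero, c_zero, d_zero]; linear_combination i4
  · refine dist_eq_of_sq ?_
    rw [a_zero, b_zero, c_zero, d_zero]; linear_combination i1
  · refine dist_eq_of_sq ?_
    rw [a_zero, b_zero, c_zero, d_zero]; linear_combination i2
  · refine dist_eq_of_sq ?_
    rw [a_zero, b_zero, h_zero]; linear_combination hh
  · refine dist_eq_of_sq ?_
    rw [a_zero, b_zero, h_zero]; linear_combination hh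
  · refine dist_eq_of_sq ?_
    rw [c_zero, d_zero, k_zero]; linear_combination hk
  · refine dist_eq_of_sq ?_
    rw [c_zero, d_zero, k_zero]; linear_combination hk

lemma isMotion : IsMotion G (P 0) P := by
  refine ⟨P_cont.continuousOn, rfl, fun t ht u w huw => ?_⟩
  rw [G, SimpleGraph.fromRel_adj] at huw
  rcases huw.2 with h | h
  · exact bar_eq ht (u, w) h
  · rw [dist_comm, dist_comm (P 0 u)]
    exact bar_eq ht (w, u) h

lemma not_congruent : ¬ Congruent (P 1) (P 0) := by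
  intro hc
  have h := hc 0 2
  rw [edist_dist, edist_dist] at h
  have h1 := (ENNReal.ofReal_eq_ofReal_iff dist_nonneg dist_nonneg).1 h
  have e1 : dist (P 1 0) (P 1 2) = 2 * a 1 := by
    change dist (⟨a 1, b 1⟩ : ℂ) ⟨-a 1, b 1⟩ = _
    rw [Complex.dist_eq_re_im]
    simp only
    rw [show (a 1 - -a 1) ^ 2 + (b 1 - b 1) ^ 2 = (2 * a 1) ^ 2 by ring]
    refine Real.sqrt_sq ?_
    unfold a U W; positivity
  have e0 : dist (P 0 0) (P 0 2) = 6 := by
    change dist (⟨a 0, b 0⟩ : ℂ) ⟨-a 0, b 0⟩ = _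
    rw [Complex.dist_eq_re_im]
    simp only
    rw [a_zero, show ((3 : ℝ) - -3) ^ 2 + (b 0 - b 0) ^ 2 = 6 ^ 2 by ring]
    exact Real.sqrt_sq (by norm_num)
  rw [e1, e0] at h1
  have h2 : (1 : ℝ) ∈ Icc (0 : ℝ) 1 := by simp
  have h3 := U_sq h2
  have h4 := W_sq h2
  have h5 : 0 ≤ U 1 := Real.sqrt_nonneg _
  have h6 : 0 ≤ W 1 := Real.sqrt_nonneg _
  unfold a at h1
  have hUW : U 1 = 6 - W 1 := by linarith
  rw [hUW] at h3
  have hW : W 1 = 2 := by nlinarith
  rw [hW] at h4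
  norm_num at h4

lemma strictlyConvex : IsStrictlyConvex (P 0) := by
  have hP : P 0 = ![⟨3, 1⟩, ⟨1, 3⟩, ⟨-3, 1⟩, ⟨-7 / 2, 0⟩, ⟨-3, -1⟩, ⟨-1, -3⟩, ⟨0, -7 / 2⟩,
      ⟨1, -3⟩] := by
    unfold P
    rw [a_zero, b_zero, c_zero, d_zero, h_zero, k_zero]
    norm_num
  rw [hP]
  intro i j k hij hjk
  fin_cases i <;> fin_cases j <;> first
    | exact absurd hij (by decide)
    | (fin_cases k <;> first
        | exact absurd hjk (by decide)
        | (simp <;> norm_num))

/-- There is a generically rigid braced polygon graph with a flexible strictly convex realisation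
(a braced octagon). -/
theorem result : ∃ G : SimpleGraph (Fin 8), IsBracedPolygon G ∧ IsGenericallyRigid G ∧
    ∃ p : Fin 8 → ℂ, IsStrictlyConvex p ∧ Flexible G p :=
  ⟨G, braced, genericallyRigid, P 0, strictlyConvex, P, isMotion, 1, by simp, not_congruent⟩

end Pool.Agent.Results.MP_ab14aa_co.FlexibleOctagon
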